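import Pool.Agent.T9h57.GL.B2
import Pool.Agent.T9h57.GP.ConvD

set_option autoImplicit false

/-! The exceptional conductors for the von Mangoldt function, and the regular moduli.
Adapted from `R460/GR/D6`. -/

namespace Pool.Agent.T9h57.GL

open Finset
open Pool.Agent.Y883.GJ
open Pool.Agent.R460.GS
open Pool.Agent.Y614.GJ.Core (ev_log)
open Pool.Agent.Y883.T4 (badc class_le)
open Pool.Agent.T9h57.PK (rad rad_pos rad_mul_le rad_le rad_dvd cond_sq)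
open Pool.Agent.T9h57.GP (RegL reg_small gp_main errG_all log_ge_one conv_realD)

/-- the primitive character `ψ` is bad -/
def BadL (N U : ℕ) (ρ : ℝ) (d : ℕ) (ψ : DirichletCharacter ℂ d) : Prop :=
  1 < d ∧ (d : ℝ) ≤ (N : ℝ) ^ (2 / 3 - ρ) ∧ ψ.IsPrimitive ∧
    ∃ y : ℕ, y ≤ N ∧ N / Real.log N ^ U < ‖∑ n ∈ Icc 1 y, LA n * ψ (n : ZMod d)‖

open Classical in
/-- the bad conductors larger than `(log N) ^ K` -/
noncomputable def E1 (N U K : ℕ) (ρ : ℝ) : Finset ℕ :=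
  (Icc 1 N).filter (fun d => Real.log N ^ K < (d : ℝ) ∧ ∃ ψ : DirichletCharacter ℂ d, BadL N U ρ d ψ)

open Classical in
/-- the exceptional integers -/
noncomputable def E2 (N U K C : ℕ) (ρ : ℝ) : Finset ℕ :=
  (E1 N U K ρ ×ˢ range ⌊Real.log N ^ C⌋₊).image (fun p => p.1 / Nat.gcd p.1 (p.2 + 1))

lemma E1_card {N U C₄ : ℕ} {ρ : ℝ} (K : ℕ) (h : ∀ Ψ : Finset (Σ f : ℕ, DirichletCharacter ℂ f),
    (∀ ψ ∈ Ψ, BadL N U ρ ψ.1 ψ.2) → (Ψ.card : ℝ) ≤ Real.log N ^ C₄) :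
    ((E1 N U K ρ).card : ℝ) ≤ Real.log N ^ C₄ := by
  classical
  have hch : ∀ d : ℕ, ∃ ψ : DirichletCharacter ℂ d, d ∈ E1 N U K ρ → BadL N U ρ d ψ := by
    intro d
    by_cases hd : d ∈ E1 N U K ρ
    · unfold E1 at hd
      rw [mem_filter] at hd
      obtain ⟨ψ, hψ⟩ := hd.2.2
      exact ⟨ψ, fun _ => hψ⟩
    · exact ⟨1, fun h => absurd h hd⟩
  choose f hf using hch
  have h1 := h ((E1 N U K ρ).image (fun d => (⟨d, f d⟩ : Σ f : ℕ, DirichletCharacter ℂ f))) (by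
    intro ψ hψ
    rw [mem_image] at hψ
    obtain ⟨d, hd, rfl⟩ := hψ
    exact hf d hd)
  rw [card_image_of_injOn (fun d _ d' _ h => congrArg Sigma.fst h)] at h1
  exact h1

lemma E2_card {N U K C C₄ : ℕ} {ρ : ℝ} (hL : 1 ≤ Real.log N) (h : ((E1 N U K ρ).card : ℝ) ≤ Real.log N ^ C₄) :
    ((E2 N U K C ρ).card : ℝ) ≤ Real.log N ^ (C₄ + C) := by
  classical
  have h1 : (E2 N U K C ρ).card ≤ (E1 N U K ρ).card * ⌊Real.log N ^ C⌋₊ := by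
    unfold E2
    refine card_image_le.trans ?_
    rw [card_product, card_range]
  have h2 : ((E2 N U K C ρ).card : ℝ) ≤ ((E1 N U K ρ).card : ℝ) * (⌊Real.log N ^ C⌋₊ : ℕ) := by
    exact_mod_cast h1
  refine h2.trans ?_
  rw [pow_add]
  exact mul_le_mul h (Nat.floor_le (by positivity)) (Nat.cast_nonneg _) (by positivity)

/-- moduli which are not divisible by an exceptional integer -/
lemma E2_reg {N U K C q j d : ℕ} {ρ : ℝ} (hq : ∀ d ∈ E2 N U K C ρ, ¬ d ∣ q)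
    (hj : ((j + 1 : ℕ) : ℝ) ≤ Real.log N ^ C) (hd : d ∣ (j + 1) * q) : d ∉ E1 N U K ρ := by
  classical
  intro h
  apply hq (d / Nat.gcd d (j + 1))
  · unfold E2
    rw [mem_image]
    refine ⟨(d, j), ?_, rfl⟩
    rw [mem_product, mem_range]
    refine ⟨h, ?_⟩
    have : j + 1 ≤ ⌊Real.log N ^ C⌋₊ := Nat.le_floor hj
    simp only
    omega
  · have h2 : d / Nat.gcd d (j + 1) ∣ (j + 1) / Nat.gcd d (j + 1) * q := by
      have hg : 0 < Nat.gcd d (j + 1) := Nat.gcd_pos_of_pos_right _ (Nat.succ_pos j)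
      obtain ⟨x, hx⟩ := Nat.gcd_dvd_left d (j + 1)
      obtain ⟨y, hy⟩ := Nat.gcd_dvd_right d (j + 1)
      obtain ⟨g, hgd⟩ : ∃ g, g = Nat.gcd d (j + 1) := ⟨_, rfl⟩
      rw [← hgd] at hx hy hg ⊢
      rw [hx, Nat.mul_div_cancel_left x hg]
      rw [hy, Nat.mul_div_cancel_left y hg]
      rw [hx, hy, mul_assoc] at hd
      exact Nat.dvd_of_mul_dvd_mul_left hg hd
    have h3 : Nat.Coprime (d / Nat.gcd d (j + 1)) ((j + 1) / Nat.gcd d (j + 1)) :=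
      Nat.coprime_div_gcd_div_gcd (Nat.gcd_pos_of_pos_right _ (Nat.succ_pos j))
    exact h3.dvd_of_dvd_mul_left h2

/-- the von Mangoldt function on the integers which are not coprime to the modulus -/
lemma nc_LA (U : ℕ) : ∃ N₀ : ℕ, ∀ N : ℕ, N₀ ≤ N → NcAt N U LA := by
  obtain ⟨B, hB⟩ := Pool.Agent.Y883.GJ.model_all U
  obtain ⟨N₁, h1⟩ := hB (B + 1)
  obtain ⟨N₂, hN₂⟩ := Filter.eventually_atTop.1 (ev_log 1 (s := 1) (by norm_num) 4)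
  refine ⟨N₁ + N₂ + 1, fun N hN => ?_⟩
  obtain ⟨hL4, -⟩ := hN₂ N (by omega)
  have hL1 : 1 ≤ Real.log N ^ B := one_le_pow₀ (by linarith)
  obtain ⟨r, hP, -⟩ := h1 N (by omega) ⌈Real.log N ^ B⌉₊ (Nat.le_ceil _) (by
    have h2 := Nat.ceil_lt_add_one (show 0 ≤ Real.log N ^ B by linarith)
    rw [pow_succ]
    nlinarith)
  intro q hq hqN
  refine le_trans (le_of_eq ?_) (hP.hL q hq hqN)
  refine sum_congr rfl fun n _ => ?_
  unfold LA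
  rw [Complex.norm_real, Real.norm_of_nonneg ArithmeticFunction.vonMangoldt_nonneg]

/-- the regular moduli -/
lemma reg_of {N U K C q : ℕ} {ρ : ℝ} (hL : 2 ≤ Real.log N) (hN1 : 1 ≤ N) (hq1 : 1 ≤ q) (hρ : 0 < ρ)
    (hqC : (q : ℝ) * Real.log N ^ C ≤ (N : ℝ) ^ (2 / 3 - ρ)) (hnc : NcAt N (U + 1) LA)
    (hq : ∀ d ∈ E2 N (U + 1) K C ρ, ¬ d ∣ q) : RegL N C K U q := by
  classical
  intro j hj χ hχ y hy
  have hq0 : NeZero ((j + 1) * q) := ⟨by positivity⟩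
  have hN0 : (0 : ℝ) < N := by exact_mod_cast hN1
  have hN1r : (1 : ℝ) ≤ N := by exact_mod_cast hN1
  have hq'r : (((j + 1) * q : ℕ) : ℝ) ≤ (N : ℝ) ^ (2 / 3 - ρ) := by
    rw [Nat.cast_mul]
    calc ((j + 1 : ℕ) : ℝ) * q ≤ Real.log N ^ C * q := by gcongr
      _ = q * Real.log N ^ C := mul_comm _ _
      _ ≤ _ := hqC
  have hqN : (((j + 1) * q : ℕ) : ℝ) ≤ N := by
    calc (((j + 1) * q : ℕ) : ℝ) ≤ (N : ℝ) ^ (2 / 3 - ρ) := hq'r
      _ ≤ (N : ℝ) ^ (1 : ℝ) := Real.rpow_le_rpow_of_exponent_le hN1r (by linarith)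
      _ = N := Real.rpow_one _
  have hqNn : (j + 1) * q ≤ N := by exact_mod_cast hqN
  have h1 := char_split hy LA χ _ (hnc _ (NeZero.pos ((j + 1) * q)) hqNn)
  have hcond : χ.conductor ∣ (j + 1) * q := DirichletCharacter.conductor_dvd_level χ
  have hcond1 : 1 < χ.conductor := by
    have : (1 : ℝ) < χ.conductor := lt_of_le_of_lt (one_le_pow₀ (by linarith)) hχ
    exact_mod_cast this
  have hcondq : χ.conductor ≤ (j + 1) * q := Nat.le_of_dvd (NeZero.pos _) hcond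
  have h2 : ‖∑ n ∈ Icc 1 y, LA n * χ.primitiveCharacter (n : ZMod χ.conductor)‖ ≤ N / Real.log N ^ (U + 1) := by
    by_contra hcon
    rw [not_le] at hcon
    apply E2_reg hq hj hcond
    unfold E1
    rw [mem_filter, mem_Icc]
    refine ⟨⟨hcond1.le, hcondq.trans hqNn⟩, hχ, χ.primitiveCharacter, hcond1, ?_,
      DirichletCharacter.primitiveCharacter_isPrimitive χ, y, hy, hcon⟩
    exact le_trans (by exact_mod_cast hcondq) hq'r
  refine h1.trans ?_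
  have hL0 : 0 < Real.log N := by linarith
  have h3 : (N : ℝ) / Real.log N ^ (U + 1) ≤ N / Real.log N ^ U / 2 := by
    rw [pow_succ, ← div_div]
    exact div_le_div_of_nonneg_left (by positivity) (by norm_num) hL
  linarith

/-- the exceptional integers have a large radical -/
theorem E2_rad (T C U : ℕ) {ρ : ℝ} (hρ : 0 < ρ) : ∃ N₀ : ℕ, ∀ N : ℕ, N₀ ≤ N →
    ∀ d ∈ E2 N U (T + C + 1) C ρ, Real.log N ^ T < (rad d : ℝ) := by
  classical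
  obtain ⟨N₁, h1⟩ := reg_small 0 (T + C) U
  obtain ⟨N₂, hN₂⟩ := Filter.eventually_atTop.1 (ev_log 1 (s := 1) (by norm_num) 4)
  refine ⟨N₁ + N₂ + 1, fun N hN d hd => ?_⟩
  have hN1 : 1 ≤ N := by omega
  have hNr : (1 : ℝ) ≤ N := by exact_mod_cast hN1
  obtain ⟨hL4, -⟩ := hN₂ N (by omega)
  have h1' := h1 N (by omega)
  obtain ⟨L, hL⟩ : ∃ L, L = Real.log (N : ℝ) := ⟨_, rfl⟩
  rw [← hL] at hL4 h1' ⊢
  have hL0 : 0 < L := by linarith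
  unfold E2 at hd
  rw [mem_image] at hd
  obtain ⟨⟨e, j⟩, he, rfl⟩ := hd
  rw [mem_product, mem_range] at he
  obtain ⟨he, hj⟩ := he
  simp only at he hj ⊢
  unfold E1 at he
  rw [mem_filter, mem_Icc, ← hL] at he
  obtain ⟨⟨he1, heN⟩, he2, ψ, hb1, hb2, hb3, y, hy, hb4⟩ := he
  rw [← hL] at hb4
  have hjr : ((j + 1 : ℕ) : ℝ) ≤ L ^ C := by
    rw [← hL] at hj
    refine le_trans ?_ (Nat.floor_le (show 0 ≤ L ^ C by positivity))
    exact_mod_cast hj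
  obtain ⟨g, hg⟩ : ∃ g, g = Nat.gcd e (j + 1) := ⟨_, rfl⟩
  rw [← hg]
  have hge : g ∣ e := by rw [hg]; exact Nat.gcd_dvd_left _ _
  have hgj : g ≤ j + 1 := by rw [hg]; exact Nat.gcd_le_right _ (Nat.succ_pos j)
  have hg0 : 0 < g := Nat.pos_of_dvd_of_pos hge he1
  by_contra hcon
  rw [not_lt] at hcon
  have hrade : (rad e : ℝ) ≤ L ^ (T + C) := by
    have k1 : rad e ≤ (e / g |> rad) * (j + 1) := by
      have k2 := rad_mul_le (e / g) g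
      rw [Nat.div_mul_cancel hge] at k2
      refine k2.trans (Nat.mul_le_mul_left _ ((rad_le hg0.ne').trans hgj))
    calc (rad e : ℝ) ≤ (rad (e / g) : ℝ) * ((j + 1 : ℕ) : ℝ) := by exact_mod_cast k1
      _ ≤ L ^ T * L ^ C := by gcongr
      _ = L ^ (T + C) := by rw [← pow_add]
  haveI : NeZero e := ⟨by omega⟩
  have h2 := h1' e he1 (by rw [pow_zero, mul_one]; exact_mod_cast heN) hrade
  unfold RegL at h2
  have h3 := h2 0 (by rw [pow_zero]; norm_num)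
  rw [show (0 + 1) * e = e by ring, ← hL] at h3
  have hc : ψ.conductor = e := hb3
  have h4 := h3 ψ (by rw [hc]; exact he2) y hy
  linarith

/-- the formula of Hardy and Littlewood in all windows, in all residue classes of the moduli which are not divisible
by one of few integers, all of them with a large radical -/
theorem gl_all (ε : ℝ) (hε : 0 < ε) (ρ : ℝ) (hρ : 0 < ρ) (A W : ℕ) :
    ∃ c : ℕ, ∀ T : ℕ, ∃ N₀ : ℕ, ∀ N : ℕ, N₀ ≤ N → ∃ D : Finset ℕ, (D.card : ℝ) ≤ Real.log N ^ c ∧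
      (∀ d ∈ D, Real.log N ^ T < (rad d : ℝ)) ∧
      ∀ q : ℕ, 1 ≤ q → (q : ℝ) ≤ (N : ℝ) ^ (2 / 3 - ρ) → (∀ d ∈ D, ¬ d ∣ q) → ∀ a : ℕ,
        ((badc (Pool.Agent.W93.PG.WinP ε W) N q a).card : ℝ) ≤ (N : ℝ) / (q * Real.log N ^ A) := by
  obtain ⟨C, U₂, h⟩ := gp_main errG_all ε hε ρ hρ A W
  have hρ2 : 0 < ρ / 2 := by positivity
  obtain ⟨C₄, Nd, hd⟩ := mL3 Pool.Agent.Y812.GJ.l2 (U₂ + 1) hρ2
  refine ⟨C₄ + C, fun T => ?_⟩
  obtain ⟨N₁, h1⟩ := h (T + C + 1)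
  obtain ⟨N₂, h2⟩ := E2_rad T C (U₂ + 1) hρ2
  obtain ⟨N₃, h3⟩ := nc_LA (U₂ + 1)
  obtain ⟨N₄, h4⟩ := Filter.eventually_atTop.1 (ev_log C (s := ρ / 2) hρ2 2)
  refine ⟨N₁ + N₂ + N₃ + N₄ + Nd + 3, fun N hN => ⟨E2 N (U₂ + 1) (T + C + 1) C (ρ / 2), ?_, ?_, ?_⟩⟩
  · exact E2_card (log_ge_one (by omega)) (E1_card _ (fun Ψ hΨ => hd N (by omega) Ψ (fun ψ hψ => hΨ ψ hψ)))
  · exact h2 N (by omega)
  · intro q hq1 hq hD a
    have hN0 : (0 : ℝ) < N := by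
      have : 0 < N := by omega
      exact_mod_cast this
    obtain ⟨h5, h6⟩ := h4 N (by omega)
    refine h1 N (by omega) q hq1 hq (reg_of h5 (by omega) hq1 hρ2 ?_ (h3 N (by omega)) hD) a
    calc (q : ℝ) * Real.log N ^ C ≤ (N : ℝ) ^ (2 / 3 - ρ) * (N : ℝ) ^ (ρ / 2) := by gcongr
      _ = (N : ℝ) ^ (2 / 3 - ρ / 2) := by
          rw [← Real.rpow_add hN0]
          congr 1
          ring

/-- all moduli but the multiples of few integers with a large radical: an arbitrary consequence of the formula in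
windows -/
theorem class_few_asymp (Q : ℕ → Prop) (ε : ℝ) (hε : 0 < ε) (W : ℕ)
    (hQ : ∃ n₀ : ℕ, ∀ n : ℕ, n₀ ≤ n → 2 ∣ n → Pool.Agent.W93.PG.WinP ε W n → Q n)
    (ρ : ℝ) (hρ : 0 < ρ) (A : ℕ) :
    ∃ c : ℕ, ∀ T : ℕ, ∃ x₀ : ℝ, ∀ x : ℝ, x₀ ≤ x → ∃ D : Finset ℕ, (D.card : ℝ) ≤ Real.log x ^ c ∧
      (∀ d ∈ D, Real.log x ^ T < (rad d : ℝ)) ∧
      ∀ q : ℕ, 1 ≤ q → (q : ℝ) ≤ x ^ (2 / 3 - ρ) → (∀ d ∈ D, ¬ d ∣ q) → ∀ a : ℤ,
        ({n : ℕ | 0 < n ∧ (n : ℝ) ≤ x ∧ 2 ∣ n ∧ (n : ℤ) ≡ a [ZMOD q] ∧ ¬ Q n}).Finite ∧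
        (({n : ℕ | 0 < n ∧ (n : ℝ) ≤ x ∧ 2 ∣ n ∧ (n : ℤ) ≡ a [ZMOD q] ∧ ¬ Q n}.ncard : ℕ) : ℝ) ≤
          x / (q * Real.log x ^ A) :=
  conv_realD (by norm_num) _ Q hQ (fun ρ hρ A => gl_all ε hε ρ hρ A W) ρ hρ A

end Pool.Agent.T9h57.GL
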