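import Pool.Agent.T9h57.GL.B1
import Pool.Agent.R460.GH.ML
import Pool.Agent.R460.GR.D6

set_option autoImplicit false

/-! Few primitive characters have a large sum with the von Mangoldt function. -/

namespace Pool.Agent.T9h57.GL

open Finset
open Pool.Agent.Y883.GJ
open Pool.Agent.R460.GS
open Pool.Agent.R460.GH (ex_k inv_k pr_vec la_vec supp_k a1_supp' a2_supp' opb two_le_bd PW_real ell ti_main
  ti_gen tot_maj Wk Zk Pk one_le_Wk Wk_le Zk_le_Pk op af mu1 mu1_supp mu1_le GG0)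
open Pool.Agent.R460.GR (Bd cs_zero)
open Pool.Agent.H807R2.Dav (ee)
open Pool.Agent.Y614.GJ.Core (ev_log)

open Classical in
theorem mL3 (h1 : L2Stm) (U : ℕ) {ρ : ℝ} (hρ : 0 < ρ) : ∃ C₄ N₀ : ℕ, ∀ N : ℕ, N₀ ≤ N →
    ∀ Ψ : Finset (Σ f : ℕ, DirichletCharacter ℂ f),
    (∀ ψ ∈ Ψ, 1 < ψ.1 ∧ (ψ.1 : ℝ) ≤ (N : ℝ) ^ (2 / 3 - ρ) ∧ ψ.2.IsPrimitive ∧
      ∃ y : ℕ, y ≤ N ∧ N / Real.log N ^ U < ‖∑ n ∈ Icc 1 y, LA n * ψ.2 (n : ZMod ψ.1)‖) →
    (Ψ.card : ℝ) ≤ Real.log N ^ C₄ := by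
  obtain ⟨A, hA⟩ : ∃ A, A = 2 * U := ⟨_, rfl⟩
  obtain ⟨k, hk, hkρ⟩ := ex_k hρ
  obtain ⟨hk0, hk12⟩ := inv_k hk
  obtain ⟨A', hA'⟩ : ∃ A', A' = A + 4 := ⟨_, rfl⟩
  have hkR : (0 : ℝ) < k := by
    have : 0 < k := by omega
    exact_mod_cast this
  obtain ⟨K₂, K, N₁, hB'⟩ := bilMajK h1 (A' + 2 * (A' + 14) + 8) 0 (2 / 3 - ρ) (1 / (k : ℝ)) (1 / 3 + 1 / (k : ℝ)) hk0
    (by linarith) (by linarith) (by linarith)
  obtain ⟨C₃, N₄, hcnt⟩ := countK3 K₂ K (2 * k) (2 / 3 - ρ) (1 / (k : ℝ)) (1 / 3 + 1 / (k : ℝ)) (by omega) hk0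
    (by
      push_cast
      rw [mul_assoc, mul_one_div, div_self hkR.ne']
      linarith) (by linarith)
  obtain ⟨N₂, hG⟩ := pr_vec h1 A' k hk
  obtain ⟨N₅, hG2⟩ := la_vec h1 A
  obtain ⟨s, hs⟩ : ∃ s : ℝ, s = min ρ (1 / 3) := ⟨_, rfl⟩
  have hs0 : 0 < s := by rw [hs]; exact lt_min hρ (by norm_num)
  have hs1 : s ≤ ρ := by rw [hs]; exact min_le_left _ _
  have hs2 : s ≤ 1 / 3 := by rw [hs]; exact min_le_right _ _
  obtain ⟨N₃, hN₃⟩ := Filter.eventually_atTop.1 (ev_log (0 + A' + 9) (s := s) hs0 8000000000)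
  refine ⟨C₃ + A' + 18, N₁ + N₂ + N₃ + N₄ + N₅ + 64, fun N hN Ψ hΨ => ?_⟩
  have hN64 : 64 ≤ N := by omega
  have hN1 : 1 ≤ N := by omega
  obtain ⟨hL16, hLp⟩ := hN₃ N (by omega)
  have hN0 : (0 : ℝ) < N := by exact_mod_cast hN1
  have hNr1 : (1 : ℝ) ≤ N := by exact_mod_cast hN1
  have hJ := JJ_le (N := N) (U := A' + 14) (by linarith)
  have key : ∀ ψ ∈ Ψ, ∃ j ∈ range (JJ N (A' + 14)),
      Bd N K₂ K (a1 (Wk k N) (Zk k N) (cc N (A' + 14)) j) ψ.1 ψ.2 ∨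
      Bd N K₂ K (a2 (Wk k N) (Wk k N) (cc N (A' + 14)) j) ψ.1 ψ.2 := by
    rintro ⟨q, χ⟩ hψ
    obtain ⟨e1, e2, e3, y, hy, e4⟩ := hΨ ⟨q, χ⟩ hψ
    simp only at e1 e2 e3 e4 ⊢
    by_contra hcon
    push Not at hcon
    have : NeZero q := ⟨by omega⟩
    have hqN : (q : ℝ) ≤ N := by
      calc (q : ℝ) ≤ (N : ℝ) ^ (2 / 3 - ρ) := e2
        _ ≤ (N : ℝ) ^ (1 : ℝ) := Real.rpow_le_rpow_of_exponent_le hNr1 (by linarith)
        _ = N := Real.rpow_one _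
    have hqNn : q ≤ N := by exact_mod_cast hqN
    have hS1 : (1 : DirichletCharacter ℂ q) ∉ ({χ} : Finset (DirichletCharacter ℂ q)) := by
      rw [mem_singleton]
      intro h
      rw [← h] at e3
      have h2 : (1 : DirichletCharacter ℂ q).conductor = q := e3
      rw [DirichletCharacter.conductor_one] at h2
      omega
    have hη : |(0 : ℝ)| ≤ Real.log N ^ 0 / N := by
      rw [abs_zero]
      positivity
    have hmain : ∑ χ' ∈ ({χ} : Finset (DirichletCharacter ℂ q)), ‖cs q y LA 0 χ'‖ ^ 2 ≤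
        (N : ℝ) ^ 2 / Real.log N ^ A := by
      apply hG2 N (by omega) q hqN {χ} 0 y hy
      intro y' hy'
      have hy'N : y' ≤ N := hy'.trans hy
      rw [← hA']
      apply hG N (by omega) q hqN {χ} 0 y' hy'N
      · have hP1 : 1 ≤ Pk k N := (one_le_Wk hN1).trans ((Wk_le hN1).trans (Zk_le_Pk hk hN64))
        have hM1 : 1 ≤ Pk k N * Wk k N := Nat.mul_le_mul hP1 (one_le_Wk hN1)
        have hMr := PW_real (k := k) hN1
        have hMN : Pk k N * Wk k N ≤ N := by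
          have : ((Pk k N * Wk k N : ℕ) : ℝ) ≤ N := hMr.trans (by
            calc (N : ℝ) ^ (2 / 3 : ℝ) ≤ (N : ℝ) ^ (1 : ℝ) :=
                  Real.rpow_le_rpow_of_exponent_le hNr1 (by norm_num)
              _ = N := Real.rpow_one _)
          exact_mod_cast this
        have t1 := ti_gen hy'N (a := fun m => op (Zk k N) (Pk k N) (af (mu1 (Wk k N) (Wk k N))) m)
          (fun m hm => mu1_supp hP1 hm) (fun m hm => opb hN1 (mu1_le _ _) hm) 0 {χ} ((range q).erase 0)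
          (Or.inr ⟨hS1, rfl⟩)
        refine t1.trans ?_
        obtain ⟨hl1, hl2⟩ := ell (by linarith) (by omega) (NeZero.pos q) hqNn hM1 hMN
        have t2 := tot_maj (q := q) (N := N) (M := Pk k N * Wk k N) (NeZero.pos q) hN1 hM1 (η := 0)
          (T := Real.log N ^ 0) (one_le_pow₀ (by linarith)) hη (ℓ := 4 * Real.log N) hl1 hl2
        have t3 := ti_main hN1 hs1 hs2 e2 hMr
        obtain ⟨L, hLd⟩ : ∃ L, L = Real.log (N : ℝ) := ⟨_, rfl⟩
        rw [← hLd] at t2 hL16 hLp ⊢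
        have hL0 : 0 < L := by linarith
        rw [le_div_iff₀ (by positivity)]
        calc (4 * ∑ j ∈ (range q).erase 0, GG0 q N (Pk k N * Wk k N) (0 + j / q) ^ 2) * L ^ (A' + 4)
            ≤ (4 * (2000000 * (L ^ 0 * (4 * L) ^ 4 * (2 * (N : ℝ) ^ (2 - s))))) * L ^ (A' + 4) := by
              gcongr
              refine t2.trans ?_
              gcongr
          _ = (4096000000 * L ^ (0 + A' + 8)) * (N : ℝ) ^ (2 - s) := by ring
          _ ≤ (L * L ^ (0 + A' + 8)) * (N : ℝ) ^ (2 - s) := by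
              gcongr
              linarith
          _ = L ^ (0 + A' + 9) * (N : ℝ) ^ (2 - s) := by ring
          _ ≤ (N : ℝ) ^ s * (N : ℝ) ^ (2 - s) := by gcongr
          _ = (N : ℝ) ^ 2 := by
              rw [← Real.rpow_add hN0, ← Real.rpow_natCast]
              congr 1
              push_cast
              ring
      · intro j hj
        refine hB' N (by omega) q e2 (a2 (Wk k N) (Wk k N) (cc N (A' + 14)) j)
          (fun m hm => one_le_bd (by linarith) hm (a2_le _ _ _ _ _)) (fun m hm => supp_k (a2_supp' hk hN1 hm))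
          (fun l => op (Zk k N) (Pk k N) (af (b2 (Wk k N) (cc N (A' + 14)) j)) l)
          (fun m hm => two_le_bd (by linarith) hm (opb hN1 (b2_le _ _ _) hm)) 0 hη y' hy'N {χ} ?_
        intro χ' hχ'
        rw [mem_singleton] at hχ'
        rw [hχ']
        exact (hcon j hj).2
      · intro j hj
        refine hB' N (by omega) q e2 (a1 (Wk k N) (Zk k N) (cc N (A' + 14)) j)
          (fun m hm => one_le_bd (by linarith) hm (a1_le _ _ _ _ _)) (fun m hm => supp_k (a1_supp' hm))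
          (fun l => op (Zk k N) (Pk k N) (af (b1 (cc N (A' + 14)) j)) l)
          (fun m hm => two_le_bd (by linarith) hm (opb hN1 (b1_le _ _) hm)) 0 hη y' hy'N {χ} ?_
        intro χ' hχ'
        rw [mem_singleton] at hχ'
        rw [hχ']
        exact (hcon j hj).1
    rw [sum_singleton, cs_zero] at hmain
    have hL0 : 0 < Real.log N := by linarith
    have h5 : (N : ℝ) ^ 2 / Real.log N ^ A = (N / Real.log N ^ U) ^ 2 := by
      rw [hA, div_pow, ← pow_mul, mul_comm U 2]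
    rw [h5] at hmain
    have h6 : 0 ≤ (N : ℝ) / Real.log N ^ U := by positivity
    have h7 := pow_lt_pow_left₀ e4 h6 two_ne_zero
    linarith
  -- the number
  have hsub : Ψ ⊆ (range (JJ N (A' + 14))).biUnion (fun j =>
      Ψ.filter (fun ψ => Bd N K₂ K (a1 (Wk k N) (Zk k N) (cc N (A' + 14)) j) ψ.1 ψ.2) ∪
      Ψ.filter (fun ψ => Bd N K₂ K (a2 (Wk k N) (Wk k N) (cc N (A' + 14)) j) ψ.1 ψ.2)) := by
    intro ψ hψ
    obtain ⟨j, hj, h⟩ := key ψ hψ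
    rw [mem_biUnion]
    refine ⟨j, hj, ?_⟩
    rw [mem_union, mem_filter, mem_filter]
    rcases h with h | h
    · exact Or.inl ⟨hψ, h⟩
    · exact Or.inr ⟨hψ, h⟩
  have hQ : ∀ ψ ∈ Ψ, 1 ≤ ψ.1 ∧ (ψ.1 : ℝ) ≤ (N : ℝ) ^ (2 / 3 - ρ) ∧ ψ.2.IsPrimitive := by
    intro ψ hψ
    obtain ⟨e1, e2, e3, -⟩ := hΨ ψ hψ
    exact ⟨by omega, e2, e3⟩
  have c1 : ∀ j, ((Ψ.filter (fun ψ => Bd N K₂ K (a1 (Wk k N) (Zk k N) (cc N (A' + 14)) j) ψ.1 ψ.2)).card : ℝ) ≤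
      Real.log N ^ C₃ := by
    intro j
    apply hcnt N (by omega) (a1 (Wk k N) (Zk k N) (cc N (A' + 14)) j)
      (fun m hm => one_le_bd (by linarith) hm (a1_le _ _ _ _ _)) (fun m hm => supp_k (a1_supp' hm))
    intro ψ hψ
    rw [mem_filter] at hψ
    obtain ⟨f1, f2, f3⟩ := hQ ψ hψ.1
    exact ⟨f1, f2, f3, hψ.2⟩
  have c2 : ∀ j, ((Ψ.filter (fun ψ => Bd N K₂ K (a2 (Wk k N) (Wk k N) (cc N (A' + 14)) j) ψ.1 ψ.2)).card : ℝ) ≤
      Real.log N ^ C₃ := by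
    intro j
    apply hcnt N (by omega) (a2 (Wk k N) (Wk k N) (cc N (A' + 14)) j)
      (fun m hm => one_le_bd (by linarith) hm (a2_le _ _ _ _ _)) (fun m hm => supp_k (a2_supp' hk hN1 hm))
    intro ψ hψ
    rw [mem_filter] at hψ
    obtain ⟨f1, f2, f3⟩ := hQ ψ hψ.1
    exact ⟨f1, f2, f3, hψ.2⟩
  have h4 := (card_le_card hsub).trans (card_biUnion_le.trans (sum_le_sum fun j _ => card_union_le _ _))
  have h5 : (Ψ.card : ℝ) ≤ ∑ j ∈ range (JJ N (A' + 14)),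
      (((Ψ.filter (fun ψ => Bd N K₂ K (a1 (Wk k N) (Zk k N) (cc N (A' + 14)) j) ψ.1 ψ.2)).card : ℝ) +
       ((Ψ.filter (fun ψ => Bd N K₂ K (a2 (Wk k N) (Wk k N) (cc N (A' + 14)) j) ψ.1 ψ.2)).card : ℝ)) := by
    exact_mod_cast h4
  refine h5.trans ((sum_le_sum fun j _ => add_le_add (c1 j) (c2 j)).trans ?_)
  rw [sum_const, card_range, nsmul_eq_mul]
  obtain ⟨L, hLd⟩ : ∃ L, L = Real.log (N : ℝ) := ⟨_, rfl⟩
  rw [← hLd] at hJ hL16 ⊢
  have hL0 : 0 < L := by linarith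
  calc (JJ N (A' + 14) : ℝ) * (L ^ C₃ + L ^ C₃) ≤ L ^ (A' + 14 + 2) * (L ^ C₃ + L ^ C₃) := by gcongr
    _ = 2 * (L ^ (A' + 14 + 2) * L ^ C₃) := by ring
    _ ≤ L ^ 2 * (L ^ (A' + 14 + 2) * L ^ C₃) := by
        gcongr
        nlinarith
    _ = L ^ (C₃ + A' + 18) := by ring

end Pool.Agent.T9h57.GL
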